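import Mathlib

namespace Pool.Agent.Results.MP_f30851_co.Half

open Finset

lemma pair {G : Type} [AddCommGroup G] [Fintype G] [DecidableEq G] (r : G → ℝ) (hr : ∀ u, 0 ≤ r u)
    (k : G) (ht : 2 * ∑ u, (if u + u = k then r u else 0) ≤ ∑ u, r u) :
    2 * ∑ u, r u * r (k - u) ≤ (∑ u, r u) ^ 2 := by
  set g : G → ℝ := fun u => if u + u = k then 0 else r u with hg
  set h : G → ℝ := fun u => if u + u = k then r u else 0 with hh
  have g0 : ∀ u, 0 ≤ g u := fun u => by simp only [hg]; split_ifs; exacts [le_rfl, hr u]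
  have h0 : ∀ u, 0 ≤ h u := fun u => by simp only [hh]; split_ifs; exacts [hr u, le_rfl]
  have e : ∑ u, r u = ∑ u, g u + ∑ u, h u := by
    rw [← sum_add_distrib]; apply sum_congr rfl; intro u _; simp only [hg, hh]; split_ifs <;> simp
  have p : ∀ u, 4 * (r u * r (k - u)) ≤
      (g u + g (k - u)) * (∑ u, g u) + 4 * (h u * ∑ u, h u) := by
    intro u
    by_cases hu : u + u = k
    · have e1 : k - u = u := by rw [← hu]; abel
      have e2 : g u = 0 := by simp [hg, hu]
      have e3 : h u = r u := by simp [hh, hu]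
      have := single_le_sum (fun u _ => h0 u) (mem_univ u)
      rw [e1, e2, e3]; rw [e3] at this
      nlinarith [hr u]
    · have hu' : ¬ (k - u + (k - u) = k) := by
        intro h'; apply hu
        have : u + u = k + (k - (k - u + (k - u))) := by abel
        rw [this, h']; simp
      have ne : u ≠ k - u := by intro h'; apply hu; nth_rewrite 2 [h']; abel
      have e2 : g u = r u := by simp [hg, hu]
      have e3 : g (k - u) = r (k - u) := by simp only [hg]; rw [if_neg hu']
      have e4 : h u = 0 := by simp [hh, hu]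
      have := add_le_sum (s := univ) (fun u _ => g0 u) (mem_univ u) (mem_univ (k - u)) ne
      rw [e2, e3] at this
      rw [e2, e3, e4]
      nlinarith [hr u, hr (k - u), sq_nonneg (r u - r (k - u))]
  have q := sum_le_sum (fun u (_ : u ∈ univ) => p u)
  have s : ∑ u, g (k - u) = ∑ u, g u := Equiv.sum_comp (Equiv.subLeft k) g
  rw [← mul_sum, sum_add_distrib, ← sum_mul, ← mul_sum, ← sum_mul, sum_add_distrib, s] at q
  have G0 : 0 ≤ ∑ u, g u := sum_nonneg fun u _ => g0 u
  have H0 : 0 ≤ ∑ u, h u := sum_nonneg fun u _ => h0 u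
  rw [e] at ht ⊢
  nlinarith

lemma pair2 {Ω G : Type} [Fintype Ω] [AddCommGroup G] [Fintype G] [DecidableEq G] (c : Ω → G)
    (k : G) (ht : 2 * (univ.filter (fun a => c a + c a = k)).card ≤ Fintype.card Ω) :
    2 * (univ.filter (fun p : Ω × Ω => c p.1 + c p.2 = k)).card ≤ Fintype.card Ω ^ 2 := by
  classical
  have e1 : Fintype.card Ω = ∑ u, (univ.filter (fun a => c a = u)).card :=
    card_eq_sum_card_fiberwise (f := c) (fun _ _ => mem_univ _)
  have e2 : (univ.filter (fun a => c a + c a = k)).card =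
      ∑ u, (if u + u = k then (univ.filter (fun a => c a = u)).card else 0) := by
    rw [card_eq_sum_card_fiberwise (f := c) (t := univ) (fun _ _ => mem_univ _)]
    apply sum_congr rfl; intro u _
    split_ifs with h
    · congr 1; ext a; simp only [mem_filter, mem_univ, true_and]
      exact ⟨fun h' => h'.2, fun h' => ⟨by rw [h', h], h'⟩⟩
    · rw [card_eq_zero, filter_eq_empty_iff]
      intro a ha h'; rw [mem_filter, h'] at ha; exact h ha.2
  have e3 : (univ.filter (fun p : Ω × Ω => c p.1 + c p.2 = k)).card =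
      ∑ u, (univ.filter (fun a => c a = u)).card * (univ.filter (fun a => c a = k - u)).card := by
    rw [card_eq_sum_card_fiberwise (f := fun p : Ω × Ω => c p.1) (t := univ)
      (fun _ _ => mem_univ _)]
    apply sum_congr rfl; intro u _
    rw [← card_product]; congr 1; ext ⟨a, b⟩
    simp only [mem_filter, mem_univ, true_and, mem_product]
    constructor
    · rintro ⟨h1, rfl⟩; exact ⟨rfl, by rw [← h1]; abel⟩
    · rintro ⟨rfl, h2⟩; exact ⟨by rw [h2]; abel, rfl⟩
  have := pair (fun u => ((univ.filter (fun a => c a = u)).card : ℝ)) (fun _ => Nat.cast_nonneg _) k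
    (by rw [e1, e2] at ht; exact_mod_cast ht)
  rw [e1, e3]; exact_mod_cast this

lemma upper {α : Type} [Fintype α] [DecidableEq α] (L : α → ℤ) (a : ℕ) : ∀ (n : ℕ) (k : ℤ), 0 < n →
    2 ^ a ∣ n → ¬ (2 : ℤ) ^ a ∣ k →
    2 * (univ.filter (fun x : Fin n → α => (n : ℤ) ∣ ∑ i, L (x i) - k)).card ≤
      Fintype.card α ^ n := by
  induction a with
  | zero => intro n k _ _ h; simp at h
  | succ a ih =>
    intro n k hn h1 h2
    obtain ⟨j, hj⟩ := h1
    obtain ⟨m, rfl⟩ : ∃ m, n = m + m := ⟨2 ^ a * j, by rw [hj]; ring⟩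
    haveI : NeZero (m + m) := ⟨hn.ne'⟩
    have hm : m = 2 ^ a * j := by rw [pow_succ] at hj; nlinarith
    have key := pair2 (fun x : Fin m → α => ((∑ i, L (x i) : ℤ) : ZMod (m + m))) (k : ZMod (m + m))
      (by
        rw [Fintype.card_fun, Fintype.card_fin]
        rcases Int.even_or_odd' k with ⟨k', rfl | rfl⟩
        · refine le_trans (le_of_eq ?_) (ih m k' (by omega) ⟨j, hm⟩ (fun h => h2 ?_))
          · congr 2; ext x
            simp only [mem_filter, mem_univ, true_and]
            rw [← Int.cast_add, ← sub_eq_zero, ← Int.cast_sub,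
              ZMod.intCast_zmod_eq_zero_iff_dvd]
            push_cast
            rw [show (m : ℤ) + m = 2 * m by ring,
              show ∑ i, L (x i) + ∑ i, L (x i) - 2 * k' = 2 * (∑ i, L (x i) - k') by ring]
            exact mul_dvd_mul_iff_left two_ne_zero
          · rw [pow_succ']; exact mul_dvd_mul_left 2 h
        · rw [filter_eq_empty_iff.2, card_empty]
          · simp
          intro x _ h
          rw [← Int.cast_add, ← sub_eq_zero, ← Int.cast_sub,
            ZMod.intCast_zmod_eq_zero_iff_dvd] at h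
          obtain ⟨t, ht⟩ := h
          push_cast at ht
          have : (m + m : ℤ) * t = 2 * (m * t) := by ring
          omega)
    rw [Fintype.card_fun, Fintype.card_fin, ← pow_mul, show m * 2 = m + m by ring] at key
    refine le_trans (le_of_eq ?_) key
    congr 1
    symm
    apply card_equiv (Fin.appendEquiv m m)
    rintro ⟨x, y⟩
    simp only [mem_filter, mem_univ, true_and, Fin.appendEquiv_apply, Fin.sum_univ_add,
      Fin.append_left, Fin.append_right]
    rw [← Int.cast_add, ← sub_eq_zero, ← Int.cast_sub, ZMod.intCast_zmod_eq_zero_iff_dvd]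

theorem half (m : ℕ) (hm : 1 ≤ m) :
    IsGreatest {z : ℝ | ∃ F : ℕ, 2 ≤ F ∧ ∃ L : Fin F → ℤ,
      z = ((Finset.univ.filter (fun x : Fin (2 * m) → Fin F =>
        ∑ i, L (x i) ≡ (m : ℤ) [ZMOD ((2 * m : ℕ) : ℤ)])).card : ℝ) / (F : ℝ) ^ (2 * m)} (1 / 2) := by
  have ub : ∀ (F : ℕ) (L : Fin F → ℤ), 2 * (Finset.univ.filter (fun x : Fin (2 * m) → Fin F =>
        ∑ i, L (x i) ≡ (m : ℤ) [ZMOD ((2 * m : ℕ) : ℤ)])).card ≤ F ^ (2 * m) := by
    intro F L
    obtain ⟨a, j, hj, e⟩ := Nat.exists_eq_two_pow_mul_odd (n := m) (by omega)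
    have := upper L (a + 1) (2 * m) m (by omega) ⟨j, by rw [e]; ring⟩ (by
      intro h
      have h' : 2 ^ (a + 1) ∣ m := by exact_mod_cast h
      rw [e, pow_succ] at h'
      have := Nat.dvd_of_mul_dvd_mul_left (by positivity) h'
      obtain ⟨t, ht⟩ := hj
      omega)
    rw [Fintype.card_fin] at this
    refine le_trans (le_of_eq ?_) this
    congr 2; ext x
    simp only [mem_filter, mem_univ, true_and]
    exact Int.modEq_comm.trans Int.modEq_iff_dvd
  refine ⟨⟨2, le_rfl, fun b => m * (b : ℕ), ?_⟩, ?_⟩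
  · have u := ub 2 (fun b => m * (b : ℕ))
    set A := Finset.univ.filter (fun x : Fin (2 * m) → Fin 2 =>
        ∑ i, (m : ℤ) * ((x i : ℕ) : ℤ) ≡ (m : ℤ) [ZMOD ((2 * m : ℕ) : ℤ)]) with hA
    let i0 : Fin (2 * m) := ⟨0, by omega⟩
    have l : Aᶜ.card ≤ A.card := by
      apply card_le_card_of_injOn (fun x => Function.update x i0 (x i0 + 1))
      · intro x hx
        simp only [hA, coe_compl, Set.mem_compl_iff, coe_filter, mem_univ, true_and,
          Set.mem_setOf_eq] at hx ⊢
        rw [← add_sum_erase _ _ (mem_univ i0), ← mul_sum, ← mul_add] at hx ⊢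
        rw [sum_congr rfl (fun i hi => by rw [Function.update_of_ne (mem_erase.1 hi).1]),
          Function.update_self]
        generalize ∑ i ∈ univ.erase i0, ((x i : ℕ) : ℤ) = S at hx ⊢
        have hb : ∀ b : Fin 2, (((b + 1 : Fin 2) : ℕ) : ℤ) = 1 - ((b : ℕ) : ℤ) := by decide
        rw [hb]
        generalize ((x i0 : ℕ) : ℤ) = B at hx ⊢
        rw [Int.modEq_iff_dvd] at hx ⊢
        rcases Int.even_or_odd' (B + S) with ⟨t, ht | ht⟩
        · exact ⟨B - t, by push_cast; linear_combination (-(m : ℤ)) * ht⟩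
        · exact absurd ⟨-t, by push_cast; linear_combination (-(m : ℤ)) * ht⟩ hx
      · intro x _ y _ h
        funext i
        have hi := congrFun h i
        by_cases e : i = i0
        · subst e; simpa using hi
        · simpa [Function.update_of_ne e] using hi
    have c := card_add_card_compl A
    rw [Fintype.card_fun, Fintype.card_fin, Fintype.card_fin] at c
    have e : 2 * A.card = 2 ^ (2 * m) := by omega
    have e' : (2 : ℝ) * A.card = 2 ^ (2 * m) := by exact_mod_cast e
    push_cast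
    rw [← e']
    have : (0 : ℝ) < 2 * A.card := by rw [e']; positivity
    rw [div_eq_div_iff two_ne_zero this.ne']; ring
  · rintro z ⟨F, hF, L, rfl⟩
    have hF' : (0 : ℝ) < F := by exact_mod_cast (show 0 < F by omega)
    rw [div_le_div_iff₀ (by positivity) two_pos, one_mul, mul_comm]
    exact_mod_cast ub F L

/-- `M(2m, m) = 1/2` for every `m ≥ 1`, and `M(n, k) ≤ 1/2` whenever some power of two divides
`n` but not `k`. -/
theorem result :
    (∀ m : ℕ, 1 ≤ m → IsGreatest {z : ℝ | ∃ F : ℕ, 2 ≤ F ∧ ∃ L : Fin F → ℤ,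
      z = ((Finset.univ.filter (fun x : Fin (2 * m) → Fin F =>
        ∑ i, L (x i) ≡ (m : ℤ) [ZMOD ((2 * m : ℕ) : ℤ)])).card : ℝ) / (F : ℝ) ^ (2 * m)} (1 / 2)) ∧
    (∀ n k a : ℕ, 2 ≤ n → 2 ^ a ∣ n → ¬ 2 ^ a ∣ k → ∀ F : ℕ, 2 ≤ F → ∀ L : Fin F → ℤ,
      ((Finset.univ.filter (fun x : Fin n → Fin F =>
        ∑ i, L (x i) ≡ (k : ℤ) [ZMOD (n : ℤ)])).card : ℝ) / (F : ℝ) ^ n ≤ 1 / 2) := by
  refine ⟨half, fun n k a hn h1 h2 F hF L => ?_⟩
  have hF' : (0 : ℝ) < F := by exact_mod_cast (show 0 < F by omega)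
  rw [div_le_div_iff₀ (by positivity) two_pos, one_mul, mul_comm]
  have := upper L a n k (by omega) h1 (fun h => h2 (by exact_mod_cast h))
  rw [Fintype.card_fin] at this
  have e : (Finset.univ.filter (fun x : Fin n → Fin F => ∑ i, L (x i) ≡ (k : ℤ) [ZMOD (n : ℤ)])) =
      univ.filter (fun x : Fin n → Fin F => (n : ℤ) ∣ ∑ i, L (x i) - k) :=
    filter_congr fun x _ => Int.modEq_comm.trans Int.modEq_iff_dvd
  rw [e]
  exact_mod_cast this

end Pool.Agent.Results.MP_f30851_co.Half
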